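import Pool.Agent.W102.GI.Defs

set_option autoImplicit false

namespace Pool.Agent.W991.GI

open Pool.Agent.W102.GI

theorem S_mul (m : ℕ) : S m * (1 - PowerSeries.X) ^ (m + 1) = 1 := by
  have h := PowerSeries.mk_add_choose_mul_one_sub_pow_eq_one (S := ℚ) m
  have e : S m = PowerSeries.mk (fun n : ℕ => ((m + n).choose m : ℚ)) := by
    unfold S
    ext r
    simp only [PowerSeries.coeff_mk, add_comm]
  rw [e]
  exact h

theorem S_step (m : ℕ) : S m = (1 - PowerSeries.X) ^ 2 * S (m + 2) := by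
  have h1 := S_mul m
  have h2 := S_mul (m + 2)
  have h3 : ((1 - PowerSeries.X) ^ 2 * S (m + 2)) * (1 - PowerSeries.X) ^ (m + 1) =
      (1 : PowerSeries ℚ) := by
    refine Eq.trans ?_ h2
    ring
  calc S m = S m * (((1 - PowerSeries.X) ^ 2 * S (m + 2)) * (1 - PowerSeries.X) ^ (m + 1)) := by
        rw [h3, mul_one]
    _ = ((1 - PowerSeries.X) ^ 2 * S (m + 2)) * (S m * (1 - PowerSeries.X) ^ (m + 1)) := by ring
    _ = _ := by rw [h1, mul_one]

theorem H2 : Pool.Agent.W102.GI.H2 := by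
  intro m k hk
  unfold hs
  have e1 : m + 2 - 2 * k = (m - 2 * k) + 2 := by omega
  have e2 : m + 2 - 2 * (k + 1) = m - 2 * k := by omega
  rw [e1, e2, S_step m]
  ring

end Pool.Agent.W991.GI
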